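import Pool.Agent.H34.AFS.Main

/-!
# The arc complexes of the four type 1 surfaces

* `F^2_{0,(1,1)}` (`Arc 0 2 2`): the product of a two and a three dimensional sphere;
* `F^0_{0,(1,1,1,1)}` (`Arc 0 4 0`): the product of a two and a seven dimensional sphere;
* `F^1_{0,(1,1,1)}` (`Arc 0 3 1`) and `F^0_{1,(1,1)}` (`Arc 1 2 0`): the non-trivial bundle over the two dimensional
  sphere with fibre the five dimensional sphere, `(S³ × S⁵) / S¹`.
-/

namespace Pool.Agent.Results.MP_5a3999_gt.AllFourSurfaces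

open Pool.Agent.H34.AFS

/-- The types of the arc complexes of the four type 1 surfaces. -/
theorem result :
    (IsPLHomeomorphic 0 2 2 4 5 (boundary 3 ×ˢ boundary 4) ∧ Nonempty (Arc 0 2 2 ≃ₜ Sph 3 × Sph 4)) ∧
    (IsPLHomeomorphic 0 4 0 4 8 (boundary 3 ×ˢ cross 8) ∧ Nonempty (Arc 0 4 0 ≃ₜ Sph 3 × Sph 8)) ∧
    Nonempty (Arc 0 3 1 ≃ₜ HopfSphere 3) ∧ Nonempty (Arc 1 2 0 ≃ₜ HopfSphere 3) :=
  main

end Pool.Agent.Results.MP_5a3999_gt.AllFourSurfaces
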